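import Pool.Agent.GSH.Pen
import Pool.Agent.GSR.Third

/-!
# GSD: the pencil of a type O datum

For a type O datum `D` over a field `K` (`Pool.Agent.GSR.Dat`) and `c₀, c₁` in `K`:

* `Dat.phi D c` is the alternating 3-form `x ∧ {B} + y ∧ {Z} + y ∧ x ∧ χ` on `U = K ^ 6`, where
  `{M} (v, v') = Sᵀ M T' - S'ᵀ M T`;
* `Dat.tv D c v` is the vector `t` with `w(t, ·) = τ_c(v, ·)`;
* `Dat.Pv D c v` is the vector `p` with `w(p, ·) = φ_c(v, t, ·)`;
* `WD D c` is the cone of all `(ξ, v)` in `K ^ 2 ⊕ U` with `w(v, K_c v) = τ_c(v, K_c v) = 0` and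
  `Pv D c v = ξ₀ v - ξ₁ K_c v`;
* `hd D c` is the same as a pencil in the sense of `Pool.Agent.GSH.Pen`.

The two quadratic forms are hermitian for `L = K(√d)`, `√d = K_c`; the map `Pv` is not conjugate
quadratic: on the vectors which are isotropic for both forms it differs from the conjugate quadratic
map by `u ↦ l(u) u` with `l : U → L` linear over `K`, so `WD` is the image of the cone of a hermitian
pencil under the `K`-linear map `(ξ, u) ↦ (ξ + l(u), u)`.

`hd_sq`: `S ^ 2 = d`. `hd_W`: the cone `W` of the pencil is `WD`.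
-/

set_option autoImplicit false

noncomputable section

namespace Pool.Agent.GSD

open Matrix GSR

section Ring

variable {F : Type} [CommRing F]

/-- the alternating form `{M}` -/
def br (M : Matrix (Fin 2) (Fin 2) F) (v v' : Fin 6 → F) : F := GSR.bl M v v' - GSR.bl M v' v

/-- the alternating 3-form `x ∧ {B} + y ∧ {Z} + y ∧ x ∧ χ` -/
def phi (D : Dat F) (c : Fin 2 → F) (a b d : Fin 6 → F) : F :=
  (a 4 * br D.B b d + b 4 * br D.B d a + d 4 * br D.B a b) +
  (a 5 * br (D.Z c) b d + b 5 * br (D.Z c) d a + d 5 * br (D.Z c) a b) +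
  ((a 5 * b 4 - a 4 * b 5) * ln 1 (D.χ c) d + (b 5 * d 4 - b 4 * d 5) * ln 1 (D.χ c) a +
    (d 5 * a 4 - d 4 * a 5) * ln 1 (D.χ c) b)

/-- the vector `p` with `w(p, b) = f(b)` for a linear form `f` -/
def dv (f : (Fin 6 → F) → F) : Fin 6 → F :=
  ![f (Pi.single 2 1), f (Pi.single 3 1), -f (Pi.single 0 1), -f (Pi.single 1 1),
    f (Pi.single 5 1), -f (Pi.single 4 1)]

/-- the vector `t` with `w(t, ·) = τ_c(v, ·)` -/
def tv (D : Dat F) (c : Fin 2 → F) (v : Fin 6 → F) : Fin 6 → F := dv (D.tau c v)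

/-- the bilinear map `(u, v) ↦ p` with `w(p, ·) = φ_c(u, t, ·)`, `w(t, ·) = τ_c(v, ·)` -/
def Pb (D : Dat F) (c : Fin 2 → F) (u v : Fin 6 → F) : Fin 6 → F := dv (phi D c u (tv D c v))

/-- the quadratic map -/
def Pv (D : Dat F) (c : Fin 2 → F) (v : Fin 6 → F) : Fin 6 → F := Pb D c v v

end Ring

/-- the cone of a type O datum -/
def WD {K : Type} [Field K] (D : Dat K) (c : Fin 2 → K) (Ω : Type) [Field Ω] [Algebra K Ω] :
    Set (GSH.I8 → Ω) :=
  {w | (D.map (algebraMap K Ω)).IsO (fun i => algebraMap K Ω (c i)) (GSH.pU w) ∧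
    ∀ i, Pv (D.map (algebraMap K Ω)) (fun i => algebraMap K Ω (c i)) (GSH.pU w) i =
      GSH.pL w 0 * GSH.pU w i -
        GSH.pL w 1 * (D.map (algebraMap K Ω)).K (fun i => algebraMap K Ω (c i)) (GSH.pU w) i}

/-! ### Bilinearity -/

section Lin

variable {F : Type} [CommRing F]

/-- the operator `K_c` as a linear map -/
def KL (D : Dat F) (c : Fin 2 → F) : (Fin 6 → F) →ₗ[F] (Fin 6 → F) where
  toFun := D.K c
  map_add' u v := by
    funext i
    have := KK_add D.B (D.Z c) (D.χ c) 1 1 u v i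
    simp only [one_mul] at this
    exact this
  map_smul' a u := by
    funext i
    have := KK_add D.B (D.Z c) (D.χ c) a 0 u u i
    simp only [zero_mul, add_zero] at this
    exact this

/-- the symplectic form as a bilinear map -/
def wL : (Fin 6 → F) →ₗ[F] (Fin 6 → F) →ₗ[F] F :=
  LinearMap.mk₂ F w (fun u u' v => by simp [w, GSR.bl]; ring) (fun a u v => by simp [w, GSR.bl]; ring)
    (fun u v v' => by simp [w, GSR.bl]; ring) (fun a u v => by simp [w, GSR.bl]; ring)

theorem tau0_lin (D : Dat F) (a : F) (u u' v : Fin 6 → F) :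
    D.tau0 (a • u + u') v = a * D.tau0 u v + D.tau0 u' v := by
  simp only [Dat.tau0, Finset.mul_sum, ← Finset.sum_add_distrib, Pi.add_apply, Pi.smul_apply,
    smul_eq_mul]
  refine Finset.sum_congr rfl fun i _ => Finset.sum_congr rfl fun j _ => ?_
  ring

theorem tau0_anti (D : Dat F) (u v : Fin 6 → F) : D.tau0 u v = -D.tau0 v u := by
  simp only [Dat.tau0, ← Finset.sum_neg_distrib]
  refine Finset.sum_congr rfl fun i _ => Finset.sum_congr rfl fun j _ => ?_
  ring

theorem tau_lin (D : Dat F) (c : Fin 2 → F) (a : F) (u u' v : Fin 6 → F) :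
    D.tau c (a • u + u') v = a * D.tau c u v + D.tau c u' v := by
  simp only [Dat.tau, tau0_lin, Dat.ta, Dat.tb, GSR.bl, ln, Pi.add_apply, Pi.smul_apply,
    smul_eq_mul]
  ring

theorem tau_anti (D : Dat F) (c : Fin 2 → F) (u v : Fin 6 → F) : D.tau c u v = -D.tau c v u := by
  simp only [Dat.tau, Dat.ta, Dat.tb]
  rw [tau0_anti]
  ring

theorem tau_add_left (D : Dat F) (c : Fin 2 → F) (u u' v : Fin 6 → F) :
    D.tau c (u + u') v = D.tau c u v + D.tau c u' v := by
  have := tau_lin D c 1 u u' v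
  rwa [one_smul, one_mul] at this

theorem tau_smul_left (D : Dat F) (c : Fin 2 → F) (a : F) (u v : Fin 6 → F) :
    D.tau c (a • u) v = a * D.tau c u v := by
  have := tau_lin D c a u 0 v
  have h0 : D.tau c 0 v = 0 := by
    have := tau_lin D c 1 0 0 v
    rw [one_smul, one_mul, add_zero] at this
    linear_combination (-1 : F) * this
  rwa [add_zero, h0, add_zero] at this

theorem tau_add_right (D : Dat F) (c : Fin 2 → F) (u v v' : Fin 6 → F) :
    D.tau c u (v + v') = D.tau c u v + D.tau c u v' := by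
  rw [tau_anti, tau_add_left, tau_anti D c u v, tau_anti D c u v']
  ring

theorem tau_smul_right (D : Dat F) (c : Fin 2 → F) (a : F) (u v : Fin 6 → F) :
    D.tau c u (a • v) = a * D.tau c u v := by
  rw [tau_anti, tau_smul_left, tau_anti D c u v]
  ring

/-- the alternating form `τ_c` as a bilinear map -/
def tauL (D : Dat F) (c : Fin 2 → F) : (Fin 6 → F) →ₗ[F] (Fin 6 → F) →ₗ[F] F :=
  LinearMap.mk₂ F (D.tau c) (tau_add_left D c) (tau_smul_left D c) (tau_add_right D c)
    (tau_smul_right D c)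

theorem tv_add (D : Dat F) (c : Fin 2 → F) (u v : Fin 6 → F) :
    tv D c (u + v) = tv D c u + tv D c v := by
  funext i
  fin_cases i <;> simp [tv, dv, tau_add_left] <;> ring

theorem tv_smul (D : Dat F) (c : Fin 2 → F) (a : F) (v : Fin 6 → F) :
    tv D c (a • v) = a • tv D c v := by
  funext i
  fin_cases i <;> simp [tv, dv, tau_smul_left]

theorem phi_add_left (D : Dat F) (c : Fin 2 → F) (a a' b d : Fin 6 → F) :
    phi D c (a + a') b d = phi D c a b d + phi D c a' b d := by
  simp only [phi, br, GSR.bl, ln, Pi.add_apply]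
  ring

theorem phi_smul_left (D : Dat F) (c : Fin 2 → F) (r : F) (a b d : Fin 6 → F) :
    phi D c (r • a) b d = r * phi D c a b d := by
  simp only [phi, br, GSR.bl, ln, Pi.smul_apply, smul_eq_mul]
  ring

theorem phi_cyc (D : Dat F) (c : Fin 2 → F) (a b d : Fin 6 → F) :
    phi D c a b d = phi D c b d a := by
  simp only [phi]
  ring

theorem phi_add_mid (D : Dat F) (c : Fin 2 → F) (a b b' d : Fin 6 → F) :
    phi D c a (b + b') d = phi D c a b d + phi D c a b' d := by
  rw [phi_cyc, phi_add_left, phi_cyc D c a b d, phi_cyc D c a b' d]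

theorem phi_smul_mid (D : Dat F) (c : Fin 2 → F) (r : F) (a b d : Fin 6 → F) :
    phi D c a (r • b) d = r * phi D c a b d := by
  rw [phi_cyc, phi_smul_left, phi_cyc D c a b d]

theorem Pb_add_left (D : Dat F) (c : Fin 2 → F) (u u' v : Fin 6 → F) :
    Pb D c (u + u') v = Pb D c u v + Pb D c u' v := by
  funext i
  fin_cases i <;> simp [Pb, dv, phi_add_left] <;> ring

theorem Pb_smul_left (D : Dat F) (c : Fin 2 → F) (r : F) (u v : Fin 6 → F) :
    Pb D c (r • u) v = r • Pb D c u v := by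
  funext i
  fin_cases i <;> simp [Pb, dv, phi_smul_left]

theorem Pb_add_right (D : Dat F) (c : Fin 2 → F) (u v v' : Fin 6 → F) :
    Pb D c u (v + v') = Pb D c u v + Pb D c u v' := by
  funext i
  fin_cases i <;> simp [Pb, dv, tv_add, phi_add_mid] <;> ring

theorem Pb_smul_right (D : Dat F) (c : Fin 2 → F) (r : F) (u v : Fin 6 → F) :
    Pb D c u (r • v) = r • Pb D c u v := by
  funext i
  fin_cases i <;> simp [Pb, dv, tv_smul, phi_smul_mid]

/-- the coordinates of the bilinear map `Pb` -/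
def PL (D : Dat F) (c : Fin 2 → F) (i : Fin 6) : (Fin 6 → F) →ₗ[F] (Fin 6 → F) →ₗ[F] F :=
  LinearMap.mk₂ F (fun u v => Pb D c u v i) (fun u u' v => by simp [Pb_add_left])
    (fun a u v => by simp [Pb_smul_left]) (fun u v v' => by simp [Pb_add_right])
    (fun a u v => by simp [Pb_smul_right])

end Lin

/-! ### Extension of scalars -/

section Map

variable {F F' : Type} [CommRing F] [CommRing F'] (f : F →+* F')

theorem map_single (i : Fin 6) :
    (fun j => f ((Pi.single i 1 : Fin 6 → F) j)) = Pi.single i 1 := by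
  funext j
  by_cases h : j = i
  · subst h
    simp
  · simp [Pi.single_eq_of_ne h]

theorem map_br (M : Matrix (Fin 2) (Fin 2) F) (v v' : Fin 6 → F) :
    br (M.map f) (fun i => f (v i)) (fun i => f (v' i)) = f (br M v v') := by
  simp only [br, map_bl, map_sub]

theorem map_phi (D : Dat F) (c : Fin 2 → F) (a b d : Fin 6 → F) :
    phi (D.map f) (fun i => f (c i)) (fun i => f (a i)) (fun i => f (b i)) (fun i => f (d i)) =
      f (phi D c a b d) := by
  have h1 : (D.map f).B = D.B.map f := rfl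
  have h2 : ∀ χ : Fin 4 → F, ∀ v : Fin 6 → F,
      ln (1 : Matrix (Fin 2) (Fin 2) F') (fun i => f (χ i)) (fun i => f (v i)) =
        f (ln 1 χ v) := by
    intro χ v
    rw [← map_one' f, map_ln]
  simp only [phi, Dat.map_Z, Dat.map_χ, h1, map_br, h2, map_add, map_mul, map_sub]

theorem map_tv (D : Dat F) (c : Fin 2 → F) (v : Fin 6 → F) :
    tv (D.map f) (fun i => f (c i)) (fun i => f (v i)) = fun i => f (tv D c v i) := by
  have h : ∀ j, (D.map f).tau (fun i => f (c i)) (fun i => f (v i)) (Pi.single j 1) =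
      f (D.tau c v (Pi.single j 1)) := by
    intro j
    rw [← map_single f j, D.map_tau f]
  funext i
  fin_cases i <;> simp [tv, dv, h]

theorem map_Pb (D : Dat F) (c : Fin 2 → F) (u v : Fin 6 → F) :
    Pb (D.map f) (fun i => f (c i)) (fun i => f (u i)) (fun i => f (v i)) =
      fun i => f (Pb D c u v i) := by
  have h : ∀ j, phi (D.map f) (fun i => f (c i)) (fun i => f (u i))
      (tv (D.map f) (fun i => f (c i)) (fun i => f (v i))) (Pi.single j 1) =
      f (phi D c u (tv D c v) (Pi.single j 1)) := by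
    intro j
    rw [← map_single f j, map_tv, map_phi]
  funext i
  fin_cases i <;> simp [Pb, dv, h]

end Map

/-! ### The pencil -/

variable {K : Type} [Field K]

/-- the matrix of a bilinear form -/
def mat (β : (Fin 6 → K) →ₗ[K] (Fin 6 → K) →ₗ[K] K) : Matrix (Fin 6) (Fin 6) K :=
  Matrix.of fun i j => β (Pi.single i 1) (Pi.single j 1)

/-- the pencil of a type O datum -/
def hd (D : Dat K) (c : Fin 2 → K) : GSH.Pen K where
  d := D.s2 c
  S := Matrix.of fun i j => D.K c (Pi.single j 1) i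
  Q := ![mat (wL.compl₂ (KL D c)), mat ((tauL D c).compl₂ (KL D c))]
  P := fun i => mat (PL D c i)

theorem lin_sum {F : Type} [CommRing F] (L : (Fin 6 → F) →ₗ[F] (Fin 6 → F)) (v : Fin 6 → F)
    (i : Fin 6) : L v i = ∑ j, L (Pi.single j 1) i * v j := by
  have h1 : v = ∑ j, v j • (Pi.single j 1 : Fin 6 → F) := by
    funext k
    simp [Finset.sum_apply, Pi.single_apply]
  conv_lhs => rw [h1]
  rw [map_sum, Finset.sum_apply]
  refine Finset.sum_congr rfl fun j _ => ?_
  rw [map_smul, Pi.smul_apply, smul_eq_mul, mul_comm]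

theorem bil_sum {F : Type} [CommRing F] (β : (Fin 6 → F) →ₗ[F] (Fin 6 → F) →ₗ[F] F)
    (u v : Fin 6 → F) : β u v = ∑ i, u i * ∑ j, β (Pi.single i 1) (Pi.single j 1) * v j := by
  have h1 : ∀ v : Fin 6 → F, v = ∑ j, v j • (Pi.single j 1 : Fin 6 → F) := by
    intro v
    funext k
    simp [Finset.sum_apply, Pi.single_apply]
  conv_lhs => rw [h1 u, h1 v]
  simp only [map_sum, map_smul, LinearMap.sum_apply, LinearMap.smul_apply, smul_eq_mul,
    Finset.mul_sum]
  refine Finset.sum_comm.trans ?_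
  refine Finset.sum_congr rfl fun i _ => Finset.sum_congr rfl fun j _ => ?_
  ring

variable {Ω : Type} [Field Ω] [Algebra K Ω]

/-- a bilinear form over `K` and its extension to `Ω` -/
theorem bl_mat (β : (Fin 6 → K) →ₗ[K] (Fin 6 → K) →ₗ[K] K)
    (β' : (Fin 6 → Ω) →ₗ[Ω] (Fin 6 → Ω) →ₗ[Ω] Ω)
    (h : ∀ i j, β' (Pi.single i 1) (Pi.single j 1) =
      algebraMap K Ω (β (Pi.single i 1) (Pi.single j 1))) (u v : Fin 6 → Ω) :
    GSH.bl (mat β) u v = β' u v := by
  rw [bil_sum]
  simp only [GSH.bl, mat, GSH.mK, dotProduct, mulVec, Matrix.map_apply, Matrix.of_apply, h]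

theorem hd_S (D : Dat K) (c : Fin 2 → K) (v : Fin 6 → Ω) :
    GSH.mK (hd D c).S *ᵥ v =
      (D.map (algebraMap K Ω)).K (fun i => algebraMap K Ω (c i)) v := by
  funext i
  have h := lin_sum (KL (D.map (algebraMap K Ω)) (fun i => algebraMap K Ω (c i))) v i
  change (D.map (algebraMap K Ω)).K (fun i => algebraMap K Ω (c i)) v i = _ at h
  rw [h]
  simp only [mulVec, dotProduct, GSH.mK, Matrix.map_apply, hd, Matrix.of_apply]
  refine Finset.sum_congr rfl fun j _ => ?_
  congr 1
  change _ = (D.map (algebraMap K Ω)).K (fun i => algebraMap K Ω (c i)) (Pi.single j 1) i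
  rw [← map_single (algebraMap K Ω) j, Dat.map_K]

theorem hd_sq (D : Dat K) (c : Fin 2 → K) : (hd D c).S * (hd D c).S = (hd D c).d • 1 := by
  ext i j
  have h1 := D.K_K c (Pi.single j 1) i
  have h2 := lin_sum (KL D c) (D.K c (Pi.single j 1)) i
  change D.K c (D.K c (Pi.single j 1)) i = _ at h2
  rw [h2] at h1
  rw [Matrix.mul_apply]
  simp only [hd, Matrix.of_apply, Matrix.smul_apply, smul_eq_mul, Matrix.one_apply]
  refine h1.trans ?_
  rw [Pi.single_apply]

theorem hd_Q0 (D : Dat K) (c : Fin 2 → K) (v : Fin 6 → Ω) :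
    GSH.bl ((hd D c).Q 0) v v =
      w v ((D.map (algebraMap K Ω)).K (fun i => algebraMap K Ω (c i)) v) := by
  refine bl_mat (wL.compl₂ (KL D c))
    (wL.compl₂ (KL (D.map (algebraMap K Ω)) (fun i => algebraMap K Ω (c i)))) ?_ v v
  intro i j
  change w (Pi.single i 1) ((D.map (algebraMap K Ω)).K (fun i => algebraMap K Ω (c i))
    (Pi.single j 1)) = algebraMap K Ω (w (Pi.single i 1) (D.K c (Pi.single j 1)))
  rw [← map_single (algebraMap K Ω) j, ← map_single (algebraMap K Ω) i, Dat.map_K, map_w]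

theorem hd_Q1 (D : Dat K) (c : Fin 2 → K) (v : Fin 6 → Ω) :
    GSH.bl ((hd D c).Q 1) v v =
      (D.map (algebraMap K Ω)).tau (fun i => algebraMap K Ω (c i)) v
        ((D.map (algebraMap K Ω)).K (fun i => algebraMap K Ω (c i)) v) := by
  refine bl_mat ((tauL D c).compl₂ (KL D c))
    ((tauL (D.map (algebraMap K Ω)) (fun i => algebraMap K Ω (c i))).compl₂
      (KL (D.map (algebraMap K Ω)) (fun i => algebraMap K Ω (c i)))) ?_ v v
  intro i j
  change (D.map (algebraMap K Ω)).tau (fun i => algebraMap K Ω (c i)) (Pi.single i 1)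
    ((D.map (algebraMap K Ω)).K (fun i => algebraMap K Ω (c i)) (Pi.single j 1)) =
      algebraMap K Ω (D.tau c (Pi.single i 1) (D.K c (Pi.single j 1)))
  rw [← map_single (algebraMap K Ω) j, ← map_single (algebraMap K Ω) i, Dat.map_K, Dat.map_tau]

theorem hd_P (D : Dat K) (c : Fin 2 → K) (v : Fin 6 → Ω) (k : Fin 6) :
    GSH.bl ((hd D c).P k) v v =
      Pv (D.map (algebraMap K Ω)) (fun i => algebraMap K Ω (c i)) v k := by
  refine bl_mat (PL D c k) (PL (D.map (algebraMap K Ω)) (fun i => algebraMap K Ω (c i)) k) ?_ v v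
  intro i j
  change Pb (D.map (algebraMap K Ω)) (fun i => algebraMap K Ω (c i)) (Pi.single i 1)
    (Pi.single j 1) k = algebraMap K Ω (Pb D c (Pi.single i 1) (Pi.single j 1) k)
  rw [← map_single (algebraMap K Ω) j, ← map_single (algebraMap K Ω) i, map_Pb]

/-- The cone of the pencil is the cone of the datum. -/
theorem hd_W (D : Dat K) (c : Fin 2 → K) : (hd D c).W Ω = WD D c Ω := by
  ext w
  unfold GSH.Pen.W WD
  simp only [Set.mem_ofPred_eq, Fin.forall_fin_two, hd_Q0, hd_Q1, hd_P, GSH.sm, Pi.add_apply,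
    Pi.smul_apply, smul_eq_mul, hd_S, Dat.IsO]
  refine and_congr Iff.rfl (forall_congr' fun i => ?_)
  rw [neg_mul, ← sub_eq_add_neg]

end Pool.Agent.GSD
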